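import Pool.Agent.helper62.VD.SpecE

/-!
# Row vde:ERD (MP_07c750_an): reduction to the fundamental domain, abstract setting
-/

set_option autoImplicit false

open MeasureTheory Filter Set Topology
open scoped ENNReal

namespace Pool.Agent.VDE

noncomputable section

/-- the element of `Γ` used by `rd` -/
def ERD_e (Γ : Type) {S : Type} [Group Γ] [MulAction Γ S] (F0 : Set S) (x : S) : Γ :=
  Classical.epsilon (fun γ : Γ => γ • x ∈ F0)

theorem ERD_rd (Γ : Type) {S : Type} [Group Γ] [MulAction Γ S] (F0 : Set S) (x : S) : rd Γ F0 x = ERD_e Γ F0 x • x := rfl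

theorem ERD_mem {Γ S : Type} [Group Γ] [MulAction Γ S] {F0 : Set S} (hu : ∀ x : S, ∃! γ : Γ, γ • x ∈ F0) (x : S) :
    ERD_e Γ F0 x • x ∈ F0 :=
  Classical.epsilon_spec (p := fun γ : Γ => γ • x ∈ F0) (hu x).exists

theorem ERD_of_mem {Γ S : Type} [Group Γ] [MulAction Γ S] {F0 : Set S} (hu : ∀ x : S, ∃! γ : Γ, γ • x ∈ F0) (x : S) (γ : Γ)
    (h : γ • x ∈ F0) : rd Γ F0 x = γ • x := by
  rw [ERD_rd, (hu x).unique (ERD_mem hu x) h]

theorem ERD_inv {Γ S : Type} [Group Γ] [MulAction Γ S] {F0 : Set S} (hu : ∀ x : S, ∃! γ : Γ, γ • x ∈ F0) (γ : Γ) (x : S) :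
    rd Γ F0 (γ • x) = rd Γ F0 x := by
  have h1 := ERD_mem hu (γ • x)
  rw [smul_smul] at h1
  rw [ERD_of_mem hu x _ h1, ERD_rd, smul_smul]

theorem ERD_id {Γ S : Type} [Group Γ] [MulAction Γ S] {F0 : Set S} (hu : ∀ x : S, ∃! γ : Γ, γ • x ∈ F0) (x : S) (hx : x ∈ F0) :
    rd Γ F0 x = x := by
  rw [ERD_of_mem hu x 1 (by rw [one_smul]; exact hx), one_smul]

theorem ERD_pre {Γ S : Type} [Group Γ] [MulAction Γ S] {F0 : Set S} (hu : ∀ x : S, ∃! γ : Γ, γ • x ∈ F0) (A : Set S) :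
    rd Γ F0 ⁻¹' A = ⋃ γ : Γ, (fun x : S => γ • x) ⁻¹' (F0 ∩ A) := by
  ext x
  simp only [mem_preimage, mem_iUnion, mem_inter_iff]
  constructor
  · intro h
    exact ⟨ERD_e Γ F0 x, ERD_mem hu x, h⟩
  · rintro ⟨γ, h2, h3⟩
    rw [ERD_of_mem hu x γ h2]
    exact h3

theorem ERD_dis {Γ S : Type} [Group Γ] [MulAction Γ S] {F0 : Set S} (hu : ∀ x : S, ∃! γ : Γ, γ • x ∈ F0) {x : S} {γ γ' : Γ}
    (h : γ • x ∈ F0) (h' : γ' • x ∈ F0) : γ = γ' := (hu x).unique h h'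

theorem ERD_sum {Γ S : Type} [Group Γ] [MeasurableSpace S] [MulAction Γ S] {μ : Measure S} {F0 : Set S} (hc : Countable Γ)
    (hu : ∀ x : S, ∃! γ : Γ, γ • x ∈ F0) (hm : ∀ γ : Γ, MeasurePreserving (fun x : S => γ • x) μ μ) (hF : MeasurableSet F0)
    (B : Set S) (hB : MeasurableSet B) : ∑' γ : Γ, μ (F0 ∩ {x | γ • x ∈ B}) = μ B := by
  have h1 : ∀ γ : Γ, MeasurableSet ((fun y : S => γ⁻¹ • y) ⁻¹' F0 ∩ B) := fun γ => ((hm γ⁻¹).measurable hF).inter hB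
  have h2 : ∀ γ : Γ, μ (F0 ∩ {x | γ • x ∈ B}) = μ ((fun y : S => γ⁻¹ • y) ⁻¹' F0 ∩ B) := by
    intro γ
    rw [← (hm γ).measure_preimage (h1 γ).nullMeasurableSet]
    congr 1
    ext x
    simp only [mem_inter_iff, mem_preimage, mem_setOf_eq, inv_smul_smul]
  rw [tsum_congr h2, ← measure_iUnion _ h1]
  · congr 1
    ext y
    simp only [mem_iUnion, mem_inter_iff, mem_preimage]
    constructor
    · rintro ⟨γ, -, h⟩
      exact h
    · intro h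
      obtain ⟨γ, hγ, -⟩ := hu y
      exact ⟨γ⁻¹, by rw [inv_inv]; exact hγ, h⟩
  · intro γ γ' hne
    rw [Function.onFun, Set.disjoint_left]
    rintro y ⟨h3, -⟩ ⟨h4, -⟩
    exact hne (inv_injective (ERD_dis hu h3 h4))

theorem ERD_proof : ERD_stmt := by
  intro Γ S _ _ _ _ _ μ F0 K d f h
  have hu := h.uniq
  have hc := h.cnt
  have hrm : Measurable (rd Γ F0) := by
    intro A hA
    rw [ERD_pre hu]
    exact MeasurableSet.iUnion fun γ => (h.mact γ).measurable (h.meas.inter hA)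
  refine ⟨fun x => ERD_mem hu x, fun γ x => ERD_inv hu γ x, fun x hx => ERD_id hu x hx, fun x => ⟨ERD_e Γ F0 x, rfl⟩, hrm,
    fun B hB => ERD_sum hc hu h.mact h.meas B hB, ?_⟩
  intro φ hφ hφi hφm
  have hm2 : Measurable (fun x => rd Γ F0 (φ x)) := hrm.comp hφ
  refine ⟨hm2, ?_⟩
  ext A hA
  rw [Measure.map_apply hm2 hA, Measure.restrict_apply (hm2 hA), Measure.restrict_apply hA]
  have e1 : (fun x => rd Γ F0 (φ x)) ⁻¹' A ∩ F0 = ⋃ γ : Γ, (F0 ∩ {x | γ • x ∈ φ ⁻¹' (F0 ∩ A)}) := by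
    ext x
    simp only [mem_inter_iff, mem_preimage, mem_iUnion, mem_setOf_eq, hφi]
    constructor
    · rintro ⟨h1, h2⟩
      exact ⟨ERD_e Γ F0 (φ x), h2, ERD_mem hu (φ x), h1⟩
    · rintro ⟨γ, h1, h2, h3⟩
      rw [ERD_of_mem hu (φ x) γ h2]
      exact ⟨h3, h1⟩
  have h1 : ∀ γ : Γ, MeasurableSet (F0 ∩ {x | γ • x ∈ φ ⁻¹' (F0 ∩ A)}) := fun γ =>
    h.meas.inter ((h.mact γ).measurable (hφ (h.meas.inter hA)))
  rw [e1, measure_iUnion _ h1, ERD_sum hc hu h.mact h.meas _ (hφ (h.meas.inter hA)),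
    hφm.measure_preimage (h.meas.inter hA).nullMeasurableSet, inter_comm]
  intro γ γ' hne
  rw [Function.onFun, Set.disjoint_left]
  rintro x ⟨-, h3⟩ ⟨-, h4⟩
  simp only [mem_setOf_eq, mem_preimage, hφi, mem_inter_iff] at h3 h4
  exact hne (ERD_dis hu h3.1 h4.1)

end

end Pool.Agent.VDE

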